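import Mathlib
import Pool.Agent.Helper1_PRS.Stmts
import Pool.Agent.Helper97_PGH.Tower

/-!
# Squad PRS: module GOO, pair steps preserve good elements
-/

set_option autoImplicit false

universe u v

namespace Pool.Agent.PRS.H64

open MvPolynomial PGH

section Ev

variable {k M E : Type*} [Field k] [Field M] [Algebra k M] [Field E] [Algebra k E]
  {R : Subalgebra k M} (φ : R →ₐ[k] E)

theorem ev_inv {t : M} (ht : t ∈ R) (ht' : t⁻¹ ∈ R) : ev φ t⁻¹ = (ev φ t)⁻¹ := by
  by_cases h0 : t = 0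
  · subst h0
    rw [inv_zero, ev_zero, inv_zero]
  · apply eq_inv_of_mul_eq_one_left
    rw [← ev_mul φ ht' ht, inv_mul_cancel₀ h0, ev_one]

theorem zpow_mem' {t : M} (ht : t ∈ R) (ht' : t⁻¹ ∈ R) (n : ℤ) : t ^ n ∈ R := by
  rcases n with n | n
  · rw [Int.ofNat_eq_natCast, zpow_natCast]
    exact pow_mem ht n
  · rw [zpow_negSucc, ← inv_pow]
    exact pow_mem ht' _

theorem ev_zpow {t : M} (ht : t ∈ R) (ht' : t⁻¹ ∈ R) (n : ℤ) : ev φ (t ^ n) = ev φ t ^ n := by
  rcases n with n | n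
  · rw [Int.ofNat_eq_natCast, zpow_natCast, zpow_natCast]
    exact ev_pow φ ht n
  · rw [zpow_negSucc, zpow_negSucc, ← inv_pow, ev_pow φ ht', ev_inv φ ht ht', inv_pow]

theorem ev_prod {ι : Type*} (s : Finset ι) (f : ι → M) (h : ∀ i ∈ s, f i ∈ R) :
    ev φ (∏ i ∈ s, f i) = ∏ i ∈ s, ev φ (f i) := by
  classical
  induction s using Finset.induction_on with
  | empty => rw [Finset.prod_empty, Finset.prod_empty, ev_one]
  | insert a s ha ih =>
    rw [Finset.prod_insert ha, Finset.prod_insert ha, ev_mul φ (h a (Finset.mem_insert_self _ _))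
      (prod_mem (fun i hi => h i (Finset.mem_insert_of_mem hi))),
      ih (fun i hi => h i (Finset.mem_insert_of_mem hi))]

theorem ev_algebraMap (c : k) : ev φ (algebraMap k M c) = algebraMap k E c := by
  rw [ev_mem φ (R.algebraMap_mem c)]
  exact φ.commutes c

theorem ev_sub_const {t : M} (ht : t ∈ R) (c : k) :
    ev φ (t - algebraMap k M c) = ev φ t - algebraMap k E c := by
  have h1 : t - algebraMap k M c = t + algebraMap k M (-c) := by
    rw [map_neg, sub_eq_add_neg]
  rw [h1, ev_add φ ht (R.algebraMap_mem _), ev_algebraMap, map_neg, sub_eq_add_neg]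

/-- evaluation commutes with rational polynomials -/
theorem ev_aeval [CharZero k] [CharZero M] [CharZero E] {ι : Type*} (y : ι → M)
    (hy : ∀ i, y i ∈ R) (F : MvPolynomial ι ℚ) :
    aeval y F ∈ R ∧ ev φ (aeval y F) = aeval (fun i => ev φ (y i)) F := by
  induction F using MvPolynomial.induction_on with
  | C c =>
    have h1 : (aeval y (C c : MvPolynomial ι ℚ) : M) = algebraMap k M (c : k) := by
      rw [aeval_C, eq_ratCast, map_ratCast]
    rw [h1]
    refine ⟨R.algebraMap_mem _, ?_⟩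
    rw [ev_algebraMap, aeval_C, eq_ratCast, map_ratCast]
  | add p q hp hq =>
    rw [map_add, map_add]
    exact ⟨add_mem hp.1 hq.1, by rw [ev_add φ hp.1 hq.1, hp.2, hq.2]⟩
  | mul_X p i hp =>
    rw [map_mul, map_mul, aeval_X, aeval_X]
    exact ⟨mul_mem hp.1 (hy i), by rw [ev_mul φ hp.1 (hy i), hp.2]⟩

end Ev

/-- the relations are preserved by specialisation -/
theorem rels_ev {k M E : Type*} [Field k] [Field M] [Algebra k M] [Field E] [Algebra k E]
    {R : Subalgebra k M} (φ : R →ₐ[k] E) {N Q : ℕ} (x : Fin 2 → M) (a : Par N → k)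
    (α : Fin Q → Par N → ℤ) (e : Fin Q → ℕ) (b z : Fin Q → M)
    (h : Rels N Q x (fun q => algebraMap k M (a q)) α e b z)
    (hx : ∀ c, x c ∈ R) (hxi : ∀ q, (x q.1 - algebraMap k M (a q))⁻¹ ∈ R)
    (hb : ∀ r, b r ∈ R) (hbi : ∀ r, (b r)⁻¹ ∈ R) (hz : ∀ r, z r ∈ R) :
    Rels N Q (fun c => ev φ (x c)) (fun q => algebraMap k E (a q)) α e (fun r => ev φ (b r))
      (fun r => ev φ (z r)) := by
  obtain ⟨h1, h2, h3⟩ := h
  have hs : ∀ q : Par N, x q.1 - algebraMap k M (a q) ∈ R := fun q =>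
    sub_mem (hx _) (R.algebraMap_mem _)
  refine ⟨fun r => ev_ne_zero φ (hb r) (hbi r) (h1 r), fun r => ?_, h3⟩
  have h4 := congrArg (ev φ) (h2 r)
  rw [ev_prod φ _ _ (fun q _ => zpow_mem' (hs q) (hxi q) _), ev_mul φ (hb r) (pow_mem (hz r) _),
    ev_pow φ (hz r)] at h4
  rw [← h4]
  refine Finset.prod_congr rfl (fun q _ => ?_)
  rw [ev_zpow φ (hs q) (hxi q), ev_sub_const φ (hx _)]

section Good

variable {k : Type u} {M : Type v} [Field k] [Field M] [Algebra k M] [IsAlgClosed k] [CharZero k]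
  [CharZero M]

open Classical in
/-- the coordinates of a pair step are good -/
theorem pair_good (hgt : HgtStmt.{u}) (rig : RigStmt.{u}) {F₀ : Set M} {N R m : ℕ} (hN : 13 ≤ N)
    (hm : 1 ≤ m) (F : MvPolynomial (Fin 2 ⊕ Par N) ℚ)
    (hF : ∀ {E : Type u} [Field E] [CharZero E] (z : J → E) (a : Par N → E),
      (∀ c i, z (c, 0) ≠ a (c, i)) → (∀ c, z (c, 1) ≠ 0) →
      (∀ Q : S N, Adm m ((N - 9) * m) Q → aeval (Sum.elim z a) Q = 0) →
      aeval (Sum.elim (fun c => z (c, 0)) a) F = 0)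
    (x : Fin 2 → M) (a : Par N → k) (α : Fin R → Par N → ℤ) (e : Fin R → ℕ) (b z : Fin R → M)
    (ha : ∀ c, Function.Injective (fun i => a (c, i)))
    (hF0 : aeval (Sum.elim x (fun q => algebraMap k M (a q))) F ≠ 0)
    (hb : ∀ r, GoodEl k F₀ (b r))
    (hR : Rels N R x (fun q => algebraMap k M (a q)) α e b z)
    (hxa : ∀ q, x q.1 ≠ algebraMap k M (a q)) (c₀ : Fin 2) : GoodEl k F₀ (x c₀) := by
  choose Tb hTb hbT hbB hbR using hb
  set y : Fin 2 ⊕ Par N → M := Sum.elim x (fun q => algebraMap k M (a q)) with hy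
  set T0 : Set M := (⋃ r, Tb r) ∪ (Set.range x ∪
    Set.range (fun q : Par N => (x q.1 - algebraMap k M (a q))⁻¹) ∪ Set.range z ∪
    Set.range (fun r => (b r)⁻¹) ∪ {(aeval y F)⁻¹}) with hT0
  have hT0f : T0.Finite := by
    apply Set.Finite.union
    · exact Set.finite_iUnion (fun i => hTb i)
    · exact ((((Set.finite_range _).union (Set.finite_range _)).union
        (Set.finite_range _)).union (Set.finite_range _)).union (Set.finite_singleton _)
  have hsub : ∀ i, Tb i ⊆ T0 := fun i => (Set.subset_iUnion Tb i).trans Set.subset_union_left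
  have hxT : ∀ c, x c ∈ T0 := fun c => Or.inr (Or.inl (Or.inl (Or.inl (Or.inl ⟨c, rfl⟩))))
  have hxiT : ∀ q : Par N, (x q.1 - algebraMap k M (a q))⁻¹ ∈ T0 := fun q =>
    Or.inr (Or.inl (Or.inl (Or.inl (Or.inr ⟨q, rfl⟩))))
  have hzT : ∀ r, z r ∈ T0 := fun r => Or.inr (Or.inl (Or.inl (Or.inr ⟨r, rfl⟩)))
  have hbiT : ∀ r, (b r)⁻¹ ∈ T0 := fun r => Or.inr (Or.inl (Or.inr ⟨r, rfl⟩))
  have hFT : (aeval y F)⁻¹ ∈ T0 := Or.inr (Or.inr rfl)
  -- the specialisation of everything
  have key : ∀ {E : Type u} [Field E] [Algebra k E] [CharZero E] (Q : Subalgebra k M),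
      T0 ⊆ (Q : Set M) → ∀ φ : Q →ₐ[k] E,
      Rels N R (fun c => ev φ (x c)) (fun q => algebraMap k E (a q)) α e (fun r => ev φ (b r))
        (fun r => ev φ (z r)) ∧
      (∀ q : Par N, ev φ (x q.1) ≠ algebraMap k E (a q)) ∧
      ∀ D : Derivation ℤ E E, (∀ c, D (ev φ (x c)) ≠ 0) → ∃ P : S N, Adm m ((N - 9) * m) P ∧
        aeval (Sum.elim (jet D (fun c => ev φ (x c))) (fun q => algebraMap k E (a q))) P ≠ 0 := by
    intro E _ _ _ Q hTQ φ
    have hxQ : ∀ c, x c ∈ Q := fun c => hTQ (hxT c)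
    have hxiQ : ∀ q : Par N, (x q.1 - algebraMap k M (a q))⁻¹ ∈ Q := fun q => hTQ (hxiT q)
    have hne : ∀ q : Par N, ev φ (x q.1) ≠ algebraMap k E (a q) := by
      intro q h0
      have h1 : x q.1 - algebraMap k M (a q) ∈ Q := sub_mem (hxQ _) (Q.algebraMap_mem _)
      have h2 := ev_ne_zero φ h1 (hxiQ q) (sub_ne_zero.2 (hxa q))
      rw [ev_sub_const φ (hxQ _), h0, sub_self] at h2
      exact h2 rfl
    refine ⟨rels_ev φ x a α e b z hR hxQ hxiQ (fun r => hTQ (hsub r (hbT r)))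
      (fun r => hTQ (hbiT r)) (fun r => hTQ (hzT r)), hne, ?_⟩
    intro D hD
    by_contra hcon
    have hcon' : ∀ P : S N, Adm m ((N - 9) * m) P →
        aeval (Sum.elim (jet D (fun c => ev φ (x c))) (fun q => algebraMap k E (a q))) P = 0 := by
      intro P hP
      by_contra h0
      exact hcon ⟨P, hP, h0⟩
    have h1 := hF (jet D (fun c => ev φ (x c))) (fun q => algebraMap k E (a q))
      (fun c i => hne (c, i)) (fun c => hD c) hcon'
    have hyQ : ∀ i, y i ∈ Q := by
      rintro (c | q)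
      · exact hxQ c
      · exact Q.algebraMap_mem _
    obtain ⟨h2, h3⟩ := ev_aeval φ y hyQ F
    have h4 := ev_ne_zero φ h2 (hTQ hFT) hF0
    rw [h3] at h4
    apply h4
    rw [← h1]
    congr 2
    funext i
    rcases i with c | q
    · rfl
    · exact ev_algebraMap φ _
  refine ⟨T0, hT0f, hxT c₀, ?_, ?_⟩
  · -- bounded heights
    intro E _ _ _ ψ
    have hch : CharZero E := charZero_of_injective_algebraMap (algebraMap k E).injective
    obtain ⟨t, htr⟩ := FF.exists_transcendental (L := k) (E := E)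
    obtain ⟨δ, hδ⟩ := exists_deriv k E htr
    let D : Derivation ℤ E E := δ.restrictScalars ℤ
    have hDk : ∀ c : k, D (algebraMap k E c) = 0 := fun c => δ.map_algebraMap c
    have hPL : PresL k D := fun c => ⟨0, by rw [hDk, map_zero]⟩
    have hDt : D t ≠ 0 := by
      change δ t ≠ 0
      rw [hδ]; exact one_ne_zero
    have hconst : ∀ w, D w = 0 → ∃ c : k, algebraMap k E c = w := by
      intro w hw
      apply not_transcendental
      intro hwt
      have hal := FF.isAlgebraic hwt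
      exact hDt (deriv_zero_of_isAlgebraic_adjoin (AlgHom.id k E) D hDk hw (hal.isAlgebraic t))
    obtain ⟨cp, sc, hsc, hcp⟩ := bounded_poles (L := k) D hPL
    choose Bd hBd using fun i => hbB i E ψ
    refine ⟨10 * ∑ P ∈ sc, cp P + 10 * ∑ r, 2 * Bd r, fun Q hTQ φ hψ => ?_⟩
    obtain ⟨k1, k2, k3⟩ := key Q hTQ φ
    refine (hgt D hconst cp sc hsc hcp N R m (fun c => ev φ (x c)) a α e (fun r => ev φ (b r))
      (fun r => ev φ (z r)) hN hm ha (fun q => hDk _) k2 k1 (k3 D) c₀).trans ?_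
    have h5 : ∀ r, ht k (ev φ (b r)) ≤ Bd r := fun r =>
      hBd r Q ((hsub r).trans hTQ) φ (fun t ht => hψ t (hsub r ht))
    have h6 : ∑ r, 2 * ht k (ev φ (b r)) ≤ ∑ r, 2 * Bd r :=
      Finset.sum_le_sum (fun r _ => Nat.mul_le_mul_left 2 (h5 r))
    omega
  · -- rigidity
    intro L E _ _ _ _ _ _ _ _ _ Q hTQ φ D hPL hDk hD0 P₀ hP₀ x₀ hx₀ hF₀
    have hch : CharZero E := charZero_of_injective_algebraMap (algebraMap L E).injective
    obtain ⟨k1, k2, k3⟩ := key Q hTQ φ
    refine rig (k := k) (L := L) D hPL hDk hD0 P₀ hP₀ N R m (fun c => ev φ (x c)) a α e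
      (fun r => ev φ (b r)) (fun r => ev φ (z r)) hN hm ha k2 k1 ?_ (k3 D) ?_ c₀
    · intro r
      exact hbR r L E Q ((hsub r).trans hTQ) φ D hPL hDk hD0 P₀ hP₀ x₀ hx₀
        (fun t ht => hF₀ t (hsub r ht))
    · intro c
      refine ⟨x₀ ⟨x c, hTQ (hxT c)⟩, ?_⟩
      have h1 := hx₀ ⟨x c, hTQ (hxT c)⟩
      rw [← ev_mem φ (hTQ (hxT c))] at h1
      exact h1

end Good

/-- nonvanishing of the exceptional polynomial at the generic point -/
theorem aeval_ne_zero {M : Type*} [Field M] [CharZero M] (K : Subfield M) {N : ℕ}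
    (F : MvPolynomial (Fin 2 ⊕ Par N) ℚ) (s : Fin 2 →₀ ℕ) (x : Fin 2 → M) (a : Par N → M)
    (ha : ∀ q, a q ∈ K) (hind : ∀ p : MvPolynomial (Fin 2) K, eval₂ K.subtype x p = 0 → p = 0)
    (hs : aeval a (coeff s (sumAlgEquiv ℚ (Fin 2) (Par N) F)) ≠ 0) :
    aeval (Sum.elim x a) F ≠ 0 := by
  intro h0
  let aK : Par N → K := fun q => ⟨a q, ha q⟩
  let θ : MvPolynomial (Par N) ℚ →+* K := eval₂Hom (Rat.castHom K) aK
  have hθC : ∀ c : ℚ, K.subtype (θ (C c)) = (c : M) := by
    intro c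
    change K.subtype (eval₂Hom (Rat.castHom K) aK (C c)) = _
    rw [eval₂Hom_C, Rat.coe_castHom, map_ratCast]
  have hθX : ∀ q, K.subtype (θ (X q)) = a q := by
    intro q
    change K.subtype (eval₂Hom (Rat.castHom K) aK (X q)) = _
    rw [eval₂Hom_X']
    rfl
  have haC : ∀ {ι : Type} (y : ι → M) (c : ℚ), aeval y (C c : MvPolynomial ι ℚ) = (c : M) := by
    intro ι y c
    rw [algHom_C, eq_ratCast]
  have hθ : ∀ P, K.subtype (θ P) = aeval a P := by
    intro P
    induction P using MvPolynomial.induction_on with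
    | C c => rw [hθC, haC]
    | add p q hp hq => rw [map_add, map_add, map_add, hp, hq]
    | mul_X p i hp => rw [map_mul, map_mul, map_mul, hp, aeval_X, hθX]
  have h1 : ∀ F : MvPolynomial (Fin 2 ⊕ Par N) ℚ,
      eval₂ K.subtype x (map θ (sumAlgEquiv ℚ (Fin 2) (Par N) F)) = aeval (Sum.elim x a) F := by
    intro F
    induction F using MvPolynomial.induction_on with
    | C c =>
      rw [haC, sumAlgEquiv_C_inl, map_C, eval₂_C, hθC]
    | add p q hp hq => rw [map_add, map_add, map_add, eval₂_add, hp, hq]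
    | mul_X p i hp =>
      rw [map_mul, map_mul, map_mul, eval₂_mul, hp, aeval_X]
      congr 1
      rcases i with c | q
      · rw [sumAlgEquiv_X_inl, map_X, eval₂_X]
        rfl
      · rw [sumAlgEquiv_X_inr, map_C, eval₂_C, hθX]
        rfl
  have h2 := hind _ ((h1 F).trans h0)
  have h3 := congrArg (coeff s) h2
  rw [coeff_map, coeff_zero] at h3
  apply hs
  rw [← hθ, h3, map_zero]

/-- GOO: pair steps preserve good elements -/
theorem goo (jt : JetStmt.{u}) (hgt : HgtStmt.{u}) (rig : RigStmt.{u}) : GooStmt.{u, v} := by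
  classical
  obtain ⟨m, N₀, hm, hN₀, hJ⟩ := jt
  choose F hF0 hF using hJ
  have hco : ∀ N (h : N ≥ N₀), ∃ s : Fin 2 →₀ ℕ,
      coeff s (sumAlgEquiv ℚ (Fin 2) (Par N) (F N h)) ≠ 0 := by
    intro N h
    have h1 : sumAlgEquiv ℚ (Fin 2) (Par N) (F N h) ≠ 0 := by
      intro h2
      exact hF0 N h ((sumAlgEquiv ℚ (Fin 2) (Par N)).injective (h2.trans (map_zero _).symm))
    exact ne_zero_iff.1 h1
  choose s hs using hco
  refine ⟨N₀, fun N => if h : N ≥ N₀ then
    coeff (s N h) (sumAlgEquiv ℚ (Fin 2) (Par N) (F N h)) else 0, ?_, ?_⟩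
  · intro N h
    simp only [dif_pos h]
    exact hs N h
  · intro k M _ _ _ _ _ _ F₀ G G' hstep hG w hw
    obtain ⟨N, R, x, a, α, e, b, z, hN, haK, ha, hΦ, hb, hR, hind, halg⟩ := hstep.step
    have hN' : N ≥ N₀ := hN
    simp only [dif_pos hN'] at hΦ
    have hFx := aeval_ne_zero _ (F N hN') (s N hN') x a haK hind hΦ
    choose a' ha' using haK
    have hae : a = fun q => algebraMap k M (a' q) := funext (fun q => (ha' q).symm)
    subst hae
    have hxa : ∀ q : Par N, x q.1 ≠ algebraMap k M (a' q) := by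
      intro q h0
      let K := (algebraMap k M).fieldRange
      have h1 := hind (X q.1 - C (⟨algebraMap k M (a' q), ⟨a' q, rfl⟩⟩ : K)) (by
        rw [eval₂_sub, eval₂_X, eval₂_C, h0]
        exact sub_self _)
      have h2 := congrArg (coeff (Finsupp.single q.1 1)) h1
      have h3 : ¬ (0 : Fin 2 →₀ ℕ) = Finsupp.single q.1 1 := by
        intro h3
        have h4 := congrArg (fun f => f q.1) h3
        simp at h4
      rw [coeff_sub, coeff_X, if_pos rfl, coeff_C, if_neg h3, coeff_zero, sub_zero] at h2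
      exact one_ne_zero h2
    refine good_of_isAlgebraic (S := (G : Set M) ∪ Set.range x) ?_ (halg w hw)
    rintro y (hy | ⟨c, rfl⟩)
    · exact hG y hy
    · refine pair_good hgt rig (hN₀.trans hN) hm (F N hN') (hF N hN') x a' α e b z ?_ hFx
        (fun r => hG _ (hb r)) hR hxa c
      intro c i j hij
      apply ha c
      change algebraMap k M (a' (c, i)) = algebraMap k M (a' (c, j))
      have hij' : a' (c, i) = a' (c, j) := hij
      rw [hij']

end Pool.Agent.PRS.H64
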